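import Pool.Agent.H39.Newt.Stmts

open MvPolynomial Pool.Agent.H39.MonoR Pool.Agent.H75.Mono

namespace Pool.Newt

/-- boxes -/
def DWN_box {V : Type} (c : V → ℕ) (S : Finset V) : Set (V → ℕ) :=
  {x | (∀ v, v ∉ S → x v = c v) ∧ ∀ v ∈ S, c v ≤ x v}

/-- finite disjoint unions of boxes -/
def DWN_good {V : Type} (A : Set (V → ℕ)) : Prop :=
  ∃ (ι : Type) (_ : Fintype ι) (c : ι → V → ℕ) (S : ι → Finset V), ∀ x : V → ℕ,
    (x ∈ A → ∃! i, x ∈ DWN_box (c i) (S i)) ∧ ((∃ i, x ∈ DWN_box (c i) (S i)) → x ∈ A)

theorem DWN_union {V : Type} {A B : Set (V → ℕ)} (hd : ∀ x, x ∈ A → x ∈ B → False)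
    (hA : DWN_good A) (hB : DWN_good B) : DWN_good (A ∪ B) := by
  obtain ⟨ι, hι, c, S, h⟩ := hA
  obtain ⟨κ, hκ, c', S', h'⟩ := hB
  refine ⟨ι ⊕ κ, inferInstance, Sum.elim c c', Sum.elim S S', fun x => ⟨?_, ?_⟩⟩
  · rintro (hx | hx)
    · obtain ⟨i, hi, hu⟩ := (h x).1 hx
      refine ⟨Sum.inl i, hi, ?_⟩
      rintro (j | j) hj
      · exact congrArg Sum.inl (hu j hj)
      · exact (hd x hx ((h' x).2 ⟨j, hj⟩)).elim
    · obtain ⟨i, hi, hu⟩ := (h' x).1 hx
      refine ⟨Sum.inr i, hi, ?_⟩
      rintro (j | j) hj
      · exact (hd x ((h x).2 ⟨j, hj⟩) hx).elim
      · exact congrArg Sum.inr (hu j hj)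
  · rintro ⟨i | i, hi⟩
    · exact Or.inl ((h x).2 ⟨i, hi⟩)
    · exact Or.inr ((h' x).2 ⟨i, hi⟩)

theorem DWN_empty {V : Type} {A : Set (V → ℕ)} (h : ∀ x, x ∉ A) : DWN_good A :=
  ⟨Empty, inferInstance, fun i => i.elim, fun i => i.elim, fun x =>
    ⟨fun hx => (h x hx).elim, fun ⟨i, _⟩ => i.elim⟩⟩

theorem DWN_main {V : Type} (D : Set (V → ℕ)) (hD : IsLowerSet D) :
    ∀ (n : ℕ) (T : Finset V) (c0 : V → ℕ), T.card = n → DWN_good (DWN_box c0 T ∩ D) := by
  classical
  intro n
  induction n with
  | zero =>
    intro T c0 hT
    have hT0 : T = ∅ := Finset.card_eq_zero.mp hT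
    subst hT0
    by_cases hc : c0 ∈ D
    · refine ⟨Unit, inferInstance, fun _ => c0, fun _ => ∅, fun x => ⟨?_, ?_⟩⟩
      · rintro ⟨hx, _⟩
        exact ⟨(), hx, fun _ _ => rfl⟩
      · rintro ⟨_, hx⟩
        refine ⟨hx, ?_⟩
        have : x = c0 := funext fun v => hx.1 v (Finset.notMem_empty v)
        rw [this]
        exact hc
    · apply DWN_empty
      rintro x ⟨hx, hxD⟩
      have : x = c0 := funext fun v => hx.1 v (Finset.notMem_empty v)
      rw [this] at hxD
      exact hc hxD
  | succ n ih =>
    intro T c0 hT
    by_cases hsub : DWN_box c0 T ⊆ D
    · refine ⟨Unit, inferInstance, fun _ => c0, fun _ => T, fun x => ⟨?_, ?_⟩⟩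
      · rintro ⟨hx, _⟩
        exact ⟨(), hx, fun _ _ => rfl⟩
      · rintro ⟨_, hx⟩
        exact ⟨hx, hsub hx⟩
    · obtain ⟨a, ha, haD⟩ := Set.not_subset.mp hsub
      have key : ∀ R : Finset V, R ⊆ T →
          DWN_good ({x | ∀ w ∈ T \ R, a w ≤ x w} ∩ (DWN_box c0 T ∩ D)) := by
        intro R
        induction R using Finset.induction_on with
        | empty =>
          intro _
          apply DWN_empty
          rintro x ⟨hx, hxb, hxD⟩
          apply haD
          apply hD _ hxD
          intro v
          by_cases hv : v ∈ T
          · exact hx v (by simpa using hv)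
          · rw [ha.1 v hv, hxb.1 v hv]
        | insert v R hvR ihR =>
          intro hsubT
          have hvT : v ∈ T := hsubT (Finset.mem_insert_self v R)
          have hRT : R ⊆ T := fun w hw => hsubT (Finset.mem_insert_of_mem hw)
          have h1 := ihR hRT
          -- slices below a v
          have h2 : ∀ k : ℕ, DWN_good ({x | ∀ w ∈ T \ (insert v R), a w ≤ x w} ∩
              ({x | x v < c0 v + k} ∩ (DWN_box c0 T ∩ D))) := by
            intro k
            induction k with
            | zero =>
              apply DWN_empty
              rintro x ⟨_, hx, hxb, _⟩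
              have := hxb.2 v hvT
              simp only [Set.mem_setOf_eq, add_zero] at hx
              omega
            | succ k ihk =>
              have h3 := ih (T.erase v)
                (fun w => if w = v then c0 v + k else if w ∈ T \ (insert v R) then a w else c0 w)
                (by rw [Finset.card_erase_of_mem hvT, hT]; rfl)
              have h4 := DWN_union ?_ ihk h3
              · convert h4 using 1
                ext x
                constructor
                · rintro ⟨hx, hxk, hxb, hxD⟩
                  simp only [Set.mem_setOf_eq] at hxk
                  by_cases hk : x v < c0 v + k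
                  · exact Or.inl ⟨hx, hk, hxb, hxD⟩
                  · right
                    have hxv : x v = c0 v + k := by omega
                    refine ⟨⟨?_, ?_⟩, hxD⟩
                    · intro w hw
                      by_cases hwv : w = v
                      · subst hwv
                        simp [hxv]
                      · have hwT : w ∉ T := fun h => hw (Finset.mem_erase.mpr ⟨hwv, h⟩)
                        have : w ∉ T \ (insert v R) := fun h => hwT (Finset.mem_sdiff.mp h).1
                        simp only [if_neg hwv, if_neg this]
                        exact hxb.1 w hwT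
                    · intro w hw
                      have hwv := (Finset.mem_erase.mp hw).1
                      have hwT := (Finset.mem_erase.mp hw).2
                      simp only [if_neg hwv]
                      by_cases hwR : w ∈ T \ (insert v R)
                      · simp only [if_pos hwR]
                        exact hx w hwR
                      · simp only [if_neg hwR]
                        exact hxb.2 w hwT
                · rintro (⟨hx, hk, hxb, hxD⟩ | ⟨⟨hb1, hb2⟩, hxD⟩)
                  · refine ⟨hx, ?_, hxb, hxD⟩
                    simp only [Set.mem_setOf_eq] at hk ⊢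
                    omega
                  · have hxv : x v = c0 v + k := by
                      have := hb1 v (Finset.notMem_erase v T)
                      simpa using this
                    refine ⟨?_, ?_, ⟨?_, ?_⟩, hxD⟩
                    · intro w hw
                      have hwT := (Finset.mem_sdiff.mp hw).1
                      have hwv : w ≠ v := fun h =>
                        (Finset.mem_sdiff.mp hw).2 (h ▸ Finset.mem_insert_self v R)
                      have := hb2 w (Finset.mem_erase.mpr ⟨hwv, hwT⟩)
                      simpa only [if_neg hwv, if_pos hw] using this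
                    · simp only [Set.mem_setOf_eq]
                      omega
                    · intro w hw
                      have hwv : w ≠ v := fun h => hw (h ▸ hvT)
                      have := hb1 w (fun h => hw (Finset.mem_erase.mp h).2)
                      have h5 : w ∉ T \ (insert v R) := fun h => hw (Finset.mem_sdiff.mp h).1
                      simpa only [if_neg hwv, if_neg h5] using this
                    · intro w hw
                      by_cases hwv : w = v
                      · subst hwv
                        omega
                      · have := hb2 w (Finset.mem_erase.mpr ⟨hwv, hw⟩)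
                        simp only [if_neg hwv] at this
                        by_cases hwR : w ∈ T \ (insert v R)
                        · simp only [if_pos hwR] at this
                          exact (ha.2 w hw).trans this
                        · simpa only [if_neg hwR] using this
              · rintro x ⟨_, hk, _⟩ ⟨hb, _⟩
                have := hb.1 v (Finset.notMem_erase v T)
                simp only [if_pos rfl] at this
                simp only [Set.mem_setOf_eq] at hk
                simp at this
                omega
          have hav := ha.2 v hvT
          have h6 := DWN_union ?_ h1 (h2 (a v - c0 v))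
          · convert h6 using 1
            ext x
            constructor
            · rintro ⟨hx, hxb, hxD⟩
              by_cases hk : x v < a v
              · right
                refine ⟨hx, ?_, hxb, hxD⟩
                simp only [Set.mem_setOf_eq]
                omega
              · left
                refine ⟨?_, hxb, hxD⟩
                intro w hw
                by_cases hwv : w = v
                · subst hwv
                  omega
                · apply hx w
                  rw [Finset.mem_sdiff] at hw ⊢
                  exact ⟨hw.1, fun h => (Finset.mem_insert.mp h).elim hwv hw.2⟩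
            · rintro (⟨hx, hxb, hxD⟩ | ⟨hx, _, hxb, hxD⟩)
              · refine ⟨?_, hxb, hxD⟩
                intro w hw
                apply hx w
                rw [Finset.mem_sdiff] at hw ⊢
                exact ⟨hw.1, fun h => hw.2 (Finset.mem_insert_of_mem h)⟩
              · exact ⟨hx, hxb, hxD⟩
          · rintro x ⟨hx, _⟩ ⟨_, hk, _⟩
            have := hx v (Finset.mem_sdiff.mpr ⟨hvT, hvR⟩)
            simp only [Set.mem_setOf_eq] at hk
            omega
      have h7 := key T (Finset.Subset.refl T)
      convert h7 using 1
      ext x
      simp

/-- DWN: lower sets of `ℕ^V` are finite disjoint unions of boxes -/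
theorem sDwn : SDwn := by
  intro V _ D hD
  classical
  obtain ⟨ι, hι, c, S, h⟩ := DWN_main D hD (Finset.univ : Finset V).card Finset.univ (fun _ => 0) rfl
  have hbox : ∀ x : V → ℕ, x ∈ DWN_box (fun _ => 0) (Finset.univ : Finset V) := fun x =>
    ⟨fun v hv => (hv (Finset.mem_univ v)).elim, fun v _ => Nat.zero_le _⟩
  let e := Fintype.equivFin ι
  refine ⟨Fintype.card ι, fun i => c (e.symm i), fun i => S (e.symm i), fun x => ⟨?_, ?_⟩⟩
  · intro hx
    obtain ⟨i, hi, hu⟩ := (h x).1 ⟨hbox x, hx⟩
    refine ⟨e i, ?_, ?_⟩
    · simpa [DWN_box] using hi
    · intro j hj
      have := hu (e.symm j) hj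
      rw [← this]
      simp
  · rintro ⟨i, hi⟩
    exact ((h x).2 ⟨e.symm i, hi⟩).2

end Pool.Newt
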